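import Pool.Agent.Lib.MP_852f56_nt.Final

namespace Pool.Agent.Results.MP_852f56_nt.Density

/-- Every interval of length `N` holds at most
`N exp (-c log N / (log log N (log log log N) ^ 3))` values `k > 2` for which the equation
sum equals product has only one solution in `k` positive integers. -/
theorem result : ∃ c : ℝ, 0 < c ∧ ∃ N₀ : ℕ, ∀ N : ℕ, N₀ ≤ N → ∀ M : ℕ,
    (Set.ncard {k : ℕ | M < k ∧ k ≤ M + N ∧ 2 < k ∧ ∀ s t : Multiset ℕ,
      (Multiset.card s = k ∧ (∀ a ∈ s, 0 < a) ∧ s.sum = s.prod) →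
      (Multiset.card t = k ∧ (∀ a ∈ t, 0 < a) ∧ t.sum = t.prod) → s = t} : ℝ) ≤
      N * Real.exp (-(c * Real.log N /
        (Real.log (Real.log N) * Real.log (Real.log (Real.log N)) ^ 3))) :=
  Pool.Agent.Lib.MP_852f56_nt.density_bound

end Pool.Agent.Results.MP_852f56_nt.Density
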